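import Pool.Agent.H17.BO.TargetsE
import Pool.Agent.H27.LV.Targets2

/-!
# MP_70ba79_ag: row BAD of the board `bo_modules` (the bad places)
-/

set_option autoImplicit false

namespace Pool.Agent.H56.BO

open MvPolynomial SC Pool.Agent.H27.LV Pool.Agent.H17.VG Pool.Agent.H17.BO

section

variable {k K : Type} [Field k] [Field K] [Algebra k K]

private theorem supp_sub {ι : Type} [Fintype ι] (u : ι → K) (v : DV k K)
    (h : poleOrder v u ≠ 0) : ∃ i, v.ord (u i) ≠ 0 := by
  by_contra hc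
  push Not at hc
  apply h
  unfold poleOrder
  refine (Finset.sup_eq_bot_iff _ _).2 fun i _ => ?_
  rw [hc i]
  rfl

private theorem finsupp {ι : Type} [Fintype ι] (hfin : ∀ f : K, {v : DV k K | v.ord f ≠ 0}.Finite)
    (u : ι → K) : {v : DV k K | poleOrder v u ≠ 0}.Finite := by
  refine (Set.finite_iUnion fun i => hfin (u i)).subset ?_
  intro v hv
  obtain ⟨i, hi⟩ := supp_sub u v hv
  exact Set.mem_iUnion.2 ⟨i, hi⟩

private theorem ge_of {ι : Type} [Fintype ι] (u : ι → K) (v : DV k K)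
    (h : poleOrder v u = 0) (i : ι) : ge v 0 (u i) := by
  have h1 : (-(v.ord (u i))).toNat ≤ poleOrder v u :=
    Finset.le_sup (f := fun i => (-(v.ord (u i))).toNat) (Finset.mem_univ i)
  right
  omega

private theorem count {ι : Type} [Fintype ι] (hfin : ∀ f : K, {v : DV k K | v.ord f ≠ 0}.Finite)
    (u : ι → K) : ∃ T : Finset (DV k K), T.card ≤ Pool.Agent.H27.LV.deg k u ∧
      ∀ v, v ∉ T → poleOrder v u = 0 := by
  classical
  refine ⟨(finsupp hfin u).toFinset, ?_, ?_⟩
  · unfold Pool.Agent.H27.LV.deg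
    rw [finsum_eq_sum_of_support_subset (s := (finsupp hfin u).toFinset) _ (by
      intro v hv
      simpa using hv)]
    rw [Finset.card_eq_sum_ones]
    refine Finset.sum_le_sum fun v hv => ?_
    rw [Set.Finite.mem_toFinset, Set.mem_ofPred] at hv
    omega
  · intro v hv
    rw [Set.Finite.mem_toFinset, Set.mem_ofPred, not_not] at hv
    exact hv

private theorem deg_le {ι ι' : Type} [Fintype ι] [Fintype ι']
    (hfin : ∀ f : K, {v : DV k K | v.ord f ≠ 0}.Finite) (u : ι → K) (u' : ι' → K) (C : ℕ)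
    (h : ∀ v : DV k K, poleOrder v u ≤ C * poleOrder v u') :
    Pool.Agent.H27.LV.deg k u ≤ C * Pool.Agent.H27.LV.deg k u' := by
  classical
  unfold Pool.Agent.H27.LV.deg
  rw [finsum_eq_sum_of_support_subset (s := (finsupp hfin u).toFinset ∪ (finsupp hfin u').toFinset)
    _ (by
      intro v hv
      simp only [Finset.coe_union, Set.Finite.coe_toFinset]
      exact Or.inl hv), finsum_eq_sum_of_support_subset
      (s := (finsupp hfin u).toFinset ∪ (finsupp hfin u').toFinset) _ (by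
      intro v hv
      simp only [Finset.coe_union, Set.Finite.coe_toFinset]
      exact Or.inr hv), Finset.mul_sum]
  exact Finset.sum_le_sum fun v _ => h v

private theorem poleOrder_one (v : DV k K) (z : K) :
    poleOrder v (fun _ : Fin 1 => z) = (-(v.ord z)).toNat := by
  unfold poleOrder
  simp

private theorem count1 (hfin : ∀ f : K, {v : DV k K | v.ord f ≠ 0}.Finite) (z : K)
    (hz : h1 k z⁻¹ = h1 k z) : ∃ T : Finset (DV k K), T.card ≤ 2 * h1 k z ∧
      ∀ v, v ∉ T → v.ord z = 0 := by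
  classical
  obtain ⟨T, hT, hT'⟩ := count hfin (fun _ : Fin 1 => z)
  obtain ⟨S, hS, hS'⟩ := count hfin (fun _ : Fin 1 => z⁻¹)
  refine ⟨T ∪ S, ?_, ?_⟩
  · have h2 := Finset.card_union_le T S
    have h3 : Pool.Agent.H27.LV.deg k (fun _ : Fin 1 => z) = h1 k z := rfl
    have h4 : Pool.Agent.H27.LV.deg k (fun _ : Fin 1 => z⁻¹) = h1 k z⁻¹ := rfl
    omega
  · intro v hv
    rw [Finset.mem_union, not_or] at hv
    have h2 := hT' v hv.1
    have h3 := hS' v hv.2
    rw [poleOrder_one] at h2 h3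
    rw [v.ord_inv] at h3
    omega

private theorem coeff_ge (v : DV k K) (P : Polynomial K) (h : pc v P = 0) (i : ℕ) :
    ge v 0 (P.coeff i) := by
  by_cases hi : i < P.natDegree + 1
  · exact ge_of (fun i : Fin (P.natDegree + 1) => P.coeff i) v h ⟨i, hi⟩
  · left
    exact Polynomial.coeff_eq_zero_of_natDegree_lt (by omega)

private theorem biU {α ι : Type} [DecidableEq α] [Fintype ι] (T : ι → Finset α) (B : ℕ)
    (h : ∀ i, (T i).card ≤ B) : (Finset.univ.biUnion T).card ≤ Fintype.card ι * B := by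
  refine Finset.card_biUnion_le.trans ?_
  refine (Finset.sum_le_sum fun i _ => h i).trans ?_
  rw [Finset.sum_const, Finset.card_univ, smul_eq_mul]

end

theorem pf_BAD (hPFM : T_PFM) (hHTA : T_HTA) (hDI : T_DI) : T_BAD := by
  classical
  intro n N
  choose CD hCD using hDI
  refine ⟨3 * (n + 1) + 9 + 36 + 2 + 9 + 2 * ∑ r ∈ Finset.range (N + 1), CD r, ?_⟩
  intro k K _ _ _ _ _ _ htr P q U V Y B hq hU hUs hH
  have hfin : ∀ f : K, {v : DV k K | v.ord f ≠ 0}.Finite := fun f => (hPFM k K htr f).1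
  have hadd : ∀ z w : K, h1 k (z + w) ≤ h1 k z + h1 k w := fun z w => (hHTA k K htr z w).1
  have hmul : ∀ z w : K, h1 k (z * w) ≤ h1 k z + h1 k w := fun z w => (hHTA k K htr z w).2.1
  have hinv : ∀ z : K, h1 k z⁻¹ = h1 k z := fun z => (hHTA k K htr z z).2.2.1
  have hneg : ∀ z : K, h1 k (-z) ≤ h1 k z := by
    intro z
    have h2 := hmul (algebraMap k K (-1)) z
    rw [(hHTA k K htr z z).2.2.2.1 (-1), zero_add, map_neg, map_one, neg_one_mul] at h2
    exact h2
  have hsub : ∀ z w : K, h1 k (z - w) ≤ h1 k z + h1 k w := by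
    intro z w
    rw [sub_eq_add_neg]
    exact (hadd _ _).trans (Nat.add_le_add_left (hneg w) _)
  -- the determinant of `q`
  have hdet : h1 k q.det ≤ 18 * B := by
    have hm3 : ∀ a b c d e f : Fin 3, h1 k (q a b * q c d * q e f) ≤ 3 * B := by
      intro a b c d e f
      have h2 := hmul (q a b * q c d) (q e f)
      have h3 := hmul (q a b) (q c d)
      have h4 := hH.hq a b
      have h5 := hH.hq c d
      have h6 := hH.hq e f
      omega
    rw [Matrix.det_fin_three]
    refine (hsub _ _).trans ?_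
    refine (Nat.add_le_add (hadd _ _) (hm3 _ _ _ _ _ _)).trans ?_
    refine (Nat.add_le_add_right (Nat.add_le_add (hadd _ _) (hm3 _ _ _ _ _ _)) _).trans ?_
    have e1 := hsub (q 0 0 * q 1 1 * q 2 2 - q 0 0 * q 1 2 * q 2 1) (q 0 1 * q 1 0 * q 2 2)
    have e2 := hsub (q 0 0 * q 1 1 * q 2 2) (q 0 0 * q 1 2 * q 2 1)
    have f1 := hm3 0 0 1 1 2 2
    have f2 := hm3 0 0 1 2 2 1
    have f3 := hm3 0 1 1 0 2 2
    have f4 := hm3 0 1 1 2 2 0
    have f5 := hm3 0 2 1 0 2 1
    omega
  obtain ⟨R0, hR0, hR1, hR2⟩ := hCD U.natDegree k K U hU hUs rfl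
  have hCle : CD U.natDegree ≤ ∑ r ∈ Finset.range (N + 1), CD r :=
    Finset.single_le_sum (fun _ _ => Nat.zero_le _) (Finset.mem_range.2 (by have := hH.dU; omega))
  have hhR : h1 k R0 ≤ CD U.natDegree * B := by
    have h2 : h1 k R0 ≤ CD U.natDegree * hP k U := by
      unfold h1 hP
      refine deg_le hfin _ _ _ fun v => ?_
      rw [poleOrder_one]
      have := hR1 v
      unfold pc at this
      have h3 : (0 : ℤ) ≤ CD U.natDegree *
        (poleOrder v fun i : Fin (U.natDegree + 1) => U.coeff i : ℕ) := by positivity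
      zify
      rw [Int.toNat_eq_max]
      exact max_le this h3
    exact h2.trans (Nat.mul_le_mul_left _ hH.hU)
  choose TP hTP hTP' using fun ja : Fin (n + 1) × Fin 3 =>
    count hfin (fun _ : Fin 1 => P ja.1 ja.2)
  choose Tq hTq hTq' using fun ab : Fin 3 × Fin 3 => count hfin (fun _ : Fin 1 => q ab.1 ab.2)
  obtain ⟨Td, hTd, hTd'⟩ := count1 hfin q.det (hinv _)
  obtain ⟨TU, hTU, hTU'⟩ := count hfin (fun i : Fin (U.natDegree + 1) => U.coeff i)
  obtain ⟨TV, hTV, hTV'⟩ := count hfin (fun i : Fin (V.natDegree + 1) => V.coeff i)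
  choose TY hTY hTY' using fun ja : Fin 3 × Fin 3 =>
    count hfin (fun i : Fin ((Y ja.1 ja.2).natDegree + 1) => (Y ja.1 ja.2).coeff i)
  obtain ⟨TR, hTR, hTR'⟩ := count1 hfin R0 (hinv _)
  refine ⟨Finset.univ.biUnion TP ∪ (Finset.univ.biUnion Tq ∪ (Td ∪ (TU ∪ (TV ∪
    (Finset.univ.biUnion TY ∪ TR))))), ?_, ?_⟩
  · have b1 := biU TP B fun ja => (hTP ja).trans (hH.hp ja.1 ja.2)
    have b2 := biU Tq B fun ab => (hTq ab).trans (hH.hq ab.1 ab.2)
    have b3 := biU TY B fun ja => (hTY ja).trans (hH.hY ja.1 ja.2)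
    simp only [Fintype.card_prod, Fintype.card_fin] at b1 b2 b3
    have b4 : TU.card ≤ B := hTU.trans hH.hU
    have b5 : TV.card ≤ B := hTV.trans hH.hV
    have c1 := Finset.card_union_le (Finset.univ.biUnion TP) (Finset.univ.biUnion Tq ∪ (Td ∪
      (TU ∪ (TV ∪ (Finset.univ.biUnion TY ∪ TR)))))
    have c2 := Finset.card_union_le (Finset.univ.biUnion Tq) (Td ∪
      (TU ∪ (TV ∪ (Finset.univ.biUnion TY ∪ TR))))
    have c3 := Finset.card_union_le Td (TU ∪ (TV ∪ (Finset.univ.biUnion TY ∪ TR)))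
    have c4 := Finset.card_union_le TU (TV ∪ (Finset.univ.biUnion TY ∪ TR))
    have c5 := Finset.card_union_le TV (Finset.univ.biUnion TY ∪ TR)
    have c6 := Finset.card_union_le (Finset.univ.biUnion TY) TR
    have c7 : 2 * h1 k R0 ≤ 2 * ((∑ r ∈ Finset.range (N + 1), CD r) * B) :=
      Nat.mul_le_mul_left _ (hhR.trans (Nat.mul_le_mul_right _ hCle))
    have c8 : (3 * (n + 1) + 9 + 36 + 2 + 9 + 2 * ∑ r ∈ Finset.range (N + 1), CD r) * B =
        (n + 1) * 3 * B + 9 * B + 36 * B + 2 * B + 9 * B +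
          2 * ((∑ r ∈ Finset.range (N + 1), CD r) * B) := by ring
    rw [c8]
    omega
  · intro v hv
    simp only [Finset.mem_union, Finset.mem_biUnion, Finset.mem_univ, true_and, not_or,
      not_exists] at hv
    obtain ⟨v1, v2, v3, v4, v5, v6, v7⟩ := hv
    have hpU : pc v U = 0 := hTU' v v4
    have hRv := hTR' v v7
    refine ⟨fun j a => ge_of _ v (hTP' (j, a) v (v1 (j, a))) (0 : Fin 1),
      fun a b => ge_of _ v (hTq' (a, b) v (v2 (a, b))) (0 : Fin 1), hTd' v v3,
      coeff_ge v U hpU, coeff_ge v V (hTV' v v5),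
      fun j a => coeff_ge v (Y j a) (hTY' (j, a) v (v6 (j, a))), ?_⟩
    intro L _ _ _ _ hsp w e hov θ hθ
    have h2 := hR2 L hsp v w e hov hpU hRv θ θ hθ hθ
    exact ⟨h2.1, h2.2.2⟩

end Pool.Agent.H56.BO
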