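import Pool.Agent.H17.BO.TargetsA
import Pool.Agent.H92.VGH.LinC

/-!
# MP_70ba79_ag: row CB of the board `bo_modules`
-/

set_option autoImplicit false

open Module

namespace Pool.Agent.H56.BO

open Pool.Agent.H17.VG Pool.Agent.H92.VGH

/-- The step where the rank grows by at most one. -/
private lemma core {K V E N : Type*} [Field K] [AddCommGroup V] [Module K V]
    [AddCommGroup E] [Module K E] [AddCommGroup N] [Module K N] [Infinite K]
    [FiniteDimensional K N] (B : V →ₗ[K] E →ₗ[K] N) (j r : ℕ)
    (hspan : ∀ U : Submodule K N, (∀ v e, B v e ∈ U) → U = ⊤)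
    (hmax : ∀ Q : Fin j → E, finrank K (US B Q) ≤ r)
    (hstep : ∀ Q : Fin j → E, r ≤ finrank K (US B Q) → ∀ R,
      finrank K (US B (Fin.snoc Q R : Fin (j + 1) → E)) ≤ r + 1)
    (hN : r + 2 ≤ finrank K N) (Q : Fin j → E) (hQ : r ≤ finrank K (US B Q)) :
    ∃ (φ : V →ₗ[K] K) (v₀ : V), φ v₀ ≠ 0 ∧
      Submodule.span K {z | ∃ v e, φ v = 0 ∧ z = B v e} ≤ US B Q ∧
      finrank K (Submodule.span K {z | ∃ v e, φ v = 0 ∧ z = B v e}) + j ≤
        finrank K (US B Q) := by
  classical
  -- the common kernel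
  have key : ∀ Q : Fin j → E, r ≤ finrank K (US B Q) →
      ∃ φ : V →ₗ[K] K, φ ≠ 0 ∧ ∀ h, φ h = 0 → ∀ R, B h R ∈ US B Q := by
    intro Q hQ
    set U := US B Q with hU
    set T : V →ₗ[K] E →ₗ[K] (N ⧸ U) := B.compr₂ U.mkQ with hT
    have hTapp : ∀ v R, T v R = U.mkQ (B v R) := fun v R => rfl
    have hT0 : ∀ v R, T v R = 0 ↔ B v R ∈ U := by
      intro v R
      rw [hTapp, Submodule.mkQ_apply, Submodule.Quotient.mk_eq_zero]
    have hA : ∀ (R : E) (v w : V), ∃ s t : K, (s ≠ 0 ∨ t ≠ 0) ∧ s • T v R + t • T w R = 0 := by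
      intro R v w
      by_cases hv : B v R ∈ U
      · refine ⟨1, 0, Or.inl one_ne_zero, ?_⟩
        rw [zero_smul, add_zero, one_smul]
        exact (hT0 v R).2 hv
      · have h1 : U ≤ U ⊔ Submodule.span K {B v R} := le_sup_left
        have h2 : B v R ∈ U ⊔ Submodule.span K {B v R} :=
          Submodule.mem_sup_right (Submodule.mem_span_singleton_self _)
        have h3 := finrank_succ_le h1 h2 hv
        have h4 : B w R ∈ U ⊔ Submodule.span K {B v R} := by
          by_contra hw
          have h5 : U ⊔ Submodule.span K {B v R} ≤ US B (Fin.snoc Q R : Fin (j + 1) → E) := by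
            refine sup_le (US_snoc_left B Q R) ?_
            rw [Submodule.span_le]
            rintro _ rfl
            exact mem_US_snoc_last B Q R v
          have h6 := finrank_succ_le h5 (mem_US_snoc_last B Q R w) hw
          have h7 := hstep Q hQ R
          omega
        obtain ⟨u, hu, z, hz, huz⟩ := Submodule.mem_sup.1 h4
        obtain ⟨c, rfl⟩ := Submodule.mem_span_singleton.1 hz
        refine ⟨-c, 1, Or.inr one_ne_zero, ?_⟩
        rw [hTapp, hTapp, one_smul, ← map_smul, ← map_add, ← huz, Submodule.mkQ_apply,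
          Submodule.Quotient.mk_eq_zero]
        have : -c • B v R + (u + c • B v R) = u := by
          rw [neg_smul]
          abel
        rw [this]
        exact hu
    have hB : ¬ ∃ m : N ⧸ U, ∀ v R, ∃ c : K, T v R = c • m := by
      rintro ⟨m, hm⟩
      obtain ⟨m', rfl⟩ := U.mkQ_surjective m
      have h1 : U ⊔ Submodule.span K {m'} = ⊤ := by
        apply hspan
        intro v e
        obtain ⟨c, hc⟩ := hm v e
        rw [hTapp, ← map_smul, ← sub_eq_zero, ← map_sub, Submodule.mkQ_apply,
          Submodule.Quotient.mk_eq_zero] at hc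
        have : B v e = (B v e - c • m') + c • m' := by abel
        rw [this]
        exact Submodule.add_mem_sup hc (Submodule.smul_mem _ _ (Submodule.mem_span_singleton_self _))
      have h2 : finrank K (U ⊔ Submodule.span K {m'} : Submodule K N) ≤
          finrank K U + finrank K (Submodule.span K {m'}) :=
        Submodule.finrank_add_le_finrank_add_finrank _ _
      rw [h1, finrank_top] at h2
      have h3 : finrank K (Submodule.span K {m'}) ≤ 1 := by
        have h5 := finrank_span_le_card (R := K) ({m'} : Set N)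
        simpa using h5
      have h4 := hmax Q
      rw [← hU] at h4
      omega
    obtain ⟨φ, hφ, h⟩ := common_kernel T hA hB
    exact ⟨φ, hφ, fun h' hh' R => (hT0 h' R).1 (h h' hh' R)⟩
  have hQeq : finrank K (US B Q) = r := le_antisymm (hmax Q) hQ
  obtain ⟨φ, hφ, hφU⟩ := key Q hQ
  obtain ⟨v₀, hv₀⟩ : ∃ v₀, φ v₀ ≠ 0 := by
    by_contra hc
    push Not at hc
    exact hφ (LinearMap.ext hc)
  set NH := Submodule.span K {z | ∃ v e, φ v = 0 ∧ z = B v e} with hNH
  have hNHU : NH ≤ US B Q := by
    rw [hNH, Submodule.span_le]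
    rintro _ ⟨v, e, hv, rfl⟩
    exact hφU v hv e
  have hmemNH : ∀ v, φ v = 0 → ∀ e, B v e ∈ NH := fun v hv e =>
    Submodule.subset_span ⟨v, e, hv, rfl⟩
  -- a vector outside
  have hout : ∃ R, B v₀ R ∉ US B Q := by
    by_contra hc
    push Not at hc
    have h1 := hspan (US B Q) (fun v e =>
      decomp B φ hv₀ _ e (fun h hh => hNHU (hmemNH h hh e)) (hc e) v)
    have h2 := hmax Q
    rw [h1, finrank_top] at h2
    omega
  have hdim : finrank K NH + j ≤ finrank K (US B Q) := by
    by_cases hdep : ∃ l : Fin j, B v₀ (Q l) ∈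
        NH ⊔ Submodule.span K {z | ∃ i, i ≠ l ∧ z = B v₀ (Q i)}
    · exfalso
      obtain ⟨l, hl⟩ := hdep
      obtain ⟨R, hR⟩ := hout
      obtain ⟨ε, hε, hε'⟩ := exists_update B Q l R
      set Q' := Function.update Q l (Q l + ε • R) with hQ'
      obtain ⟨φ', hφ', hφU'⟩ := key Q' (by omega)
      have hker : ∀ h, φ h = 0 → φ' h = 0 := by
        intro h hh
        by_contra hc
        have h1 : US B (Fin.snoc Q R : Fin (j + 1) → E) = ⊤ := by
          apply hspan
          intro v e
          have hQQ' : US B Q' ≤ US B (Fin.snoc Q R : Fin (j + 1) → E) := by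
            apply US_le
            intro v i
            by_cases hi : i = l
            · rw [hi, hQ', Function.update_self, map_add, map_smul]
              exact Submodule.add_mem _ (US_snoc_left B Q R (mem_US B Q v l))
                (Submodule.smul_mem _ _ (mem_US_snoc_last B Q R v))
            · rw [hQ', Function.update_of_ne hi]
              exact US_snoc_left B Q R (mem_US B Q v i)
          exact decomp B φ' hc _ e (fun h' hh' => hQQ' (hφU' h' hh' e))
            (US_snoc_left B Q R (hφU h hh e)) v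
        have h2 := hstep Q hQ R
        rw [h1, finrank_top] at h2
        omega
      have hNH' : NH ≤ US B Q' := by
        rw [hNH, Submodule.span_le]
        rintro _ ⟨v, e, hv, rfl⟩
        exact hφU' v (hker v hv) e
      have h1 : ∀ i, i ≠ l → B v₀ (Q i) ∈ US B Q' := by
        intro i hi
        have := mem_US B Q' v₀ i
        rwa [hQ', Function.update_of_ne hi] at this
      have h2 : B v₀ (Q l) ∈ US B Q' := by
        have h3 : NH ⊔ Submodule.span K {z | ∃ i, i ≠ l ∧ z = B v₀ (Q i)} ≤ US B Q' := by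
          refine sup_le hNH' ?_
          rw [Submodule.span_le]
          rintro _ ⟨i, hi, rfl⟩
          exact h1 i hi
        exact h3 hl
      have h3 : B v₀ R ∈ US B Q' := by
        have h4 := mem_US B Q' v₀ l
        rw [hQ', Function.update_self, map_add, map_smul] at h4
        have h5 : ε • B v₀ R ∈ US B Q' := by
          have h6 := (US B Q').sub_mem h4 h2
          rwa [add_sub_cancel_left] at h6
        have h7 := (US B Q').smul_mem ε⁻¹ h5
        rwa [smul_smul, inv_mul_cancel₀ hε, one_smul] at h7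
      have h4 : US B Q ≤ US B Q' := by
        apply US_le
        intro v i
        refine decomp B φ hv₀ _ (Q i) (fun h hh => hNH' (hmemNH h hh _)) ?_ v
        by_cases hi : i = l
        · rw [hi]
          exact h2
        · exact h1 i hi
      have h5 := finrank_succ_le h4 h3 hR
      have h6 := hmax Q'
      omega
    · push Not at hdep
      have h1 : ∀ p, p ≤ j → finrank K NH + p ≤ finrank K
          (NH ⊔ Submodule.span K {z | ∃ i : Fin j, (i : ℕ) < p ∧ z = B v₀ (Q i)} :
            Submodule K N) := by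
        intro p
        induction p with
        | zero =>
          intro _
          rw [add_zero]
          exact Submodule.finrank_mono le_sup_left
        | succ p ih =>
          intro hp
          have h2 := ih (by omega)
          have h3 : (NH ⊔ Submodule.span K {z | ∃ i : Fin j, (i : ℕ) < p ∧ z = B v₀ (Q i)} :
              Submodule K N) ≤
              NH ⊔ Submodule.span K {z | ∃ i : Fin j, (i : ℕ) < p + 1 ∧ z = B v₀ (Q i)} := by
            refine sup_le_sup_left (Submodule.span_mono ?_) _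
            rintro _ ⟨i, hi, rfl⟩
            exact ⟨i, by omega, rfl⟩
          have h4 : B v₀ (Q ⟨p, by omega⟩) ∈
              NH ⊔ Submodule.span K {z | ∃ i : Fin j, (i : ℕ) < p + 1 ∧ z = B v₀ (Q i)} :=
            Submodule.mem_sup_right (Submodule.subset_span ⟨⟨p, by omega⟩, by simp, rfl⟩)
          have h5 : B v₀ (Q ⟨p, by omega⟩) ∉
              NH ⊔ Submodule.span K {z | ∃ i : Fin j, (i : ℕ) < p ∧ z = B v₀ (Q i)} := by
            intro h6
            apply hdep ⟨p, by omega⟩
            have h7 : (NH ⊔ Submodule.span K {z | ∃ i : Fin j, (i : ℕ) < p ∧ z = B v₀ (Q i)} :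
                Submodule K N) ≤
                NH ⊔ Submodule.span K {z | ∃ i : Fin j, i ≠ ⟨p, by omega⟩ ∧ z = B v₀ (Q i)} := by
              refine sup_le_sup_left (Submodule.span_mono ?_) _
              rintro _ ⟨i, hi, rfl⟩
              refine ⟨i, ?_, rfl⟩
              rintro rfl
              simp at hi
            exact h7 h6
          have h6 := finrank_succ_le h3 h4 h5
          omega
      refine (h1 j le_rfl).trans (Submodule.finrank_mono ?_)
      refine sup_le hNHU ?_
      rw [Submodule.span_le]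
      rintro _ ⟨i, _, rfl⟩
      exact mem_US B Q v₀ i
  exact ⟨φ, v₀, hv₀, hNHU, hdim⟩

theorem pf_CB : Pool.Agent.H17.BO.T_CB := by
  classical
  intro K V E N _ _ _ _ _ _ _ _ _ _ B δ hδ1 hN hspan' hH
  by_contra hcon
  rw [not_or, not_exists, not_exists] at hcon
  obtain ⟨hc1, hc2⟩ := hcon
  have hspan : ∀ U : Submodule K N, (∀ v e, B v e ∈ U) → U = ⊤ := by
    intro U hU
    rw [eq_top_iff, ← hspan', Submodule.span_le]
    rintro _ ⟨v, q, rfl⟩
    exact hU v q
  have hlt : ∀ Q : Fin (δ - 1) → E, finrank K (US B Q) + 2 ≤ 2 * δ := by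
    intro Q
    have h1 : ¬ 2 * δ ≤ finrank K (US B Q) + 1 := hc1 Q
    omega
  have hsnoc : ∀ (Q : Fin (δ - 1) → E) (R : E), finrank K (US B Q) + 2 = 2 * δ →
      finrank K (US B (Fin.snoc Q R : Fin (δ - 1 + 1) → E)) + 1 ≤ 2 * δ := by
    intro Q R hQ
    have h1 : US B (Fin.snoc Q R : Fin (δ - 1 + 1) → E) ≠ ⊤ := by
      intro htop
      refine hc2 Q ⟨R, hQ, ?_⟩
      rw [eq_top_iff, ← htop]
      apply US_le
      intro v i
      refine Fin.lastCases ?_ (fun i => ?_) i
      · rw [Fin.snoc_last]
        exact Submodule.subset_span ⟨v, Sum.inr (), rfl⟩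
      · rw [Fin.snoc_castSucc]
        exact Submodule.subset_span ⟨v, Sum.inl i, rfl⟩
    have h2 := Submodule.finrank_lt (lt_top_iff_ne_top.2 h1).ne
    omega
  have hbd : ∀ (j : ℕ) (Q : Fin j → E), finrank K (US B Q) ≤ 2 * δ := by
    intro j Q
    have := Submodule.finrank_le (US B Q)
    omega
  set P : ℕ → ℕ → Prop := fun j r => ∃ Q : Fin j → E, r ≤ finrank K (US B Q) with hP
  set r : ℕ → ℕ := fun j => Nat.findGreatest (P j) (2 * δ) with hr
  have hrspec : ∀ j, P j (r j) := by
    intro j
    exact Nat.findGreatest_spec (P := P j) (Nat.zero_le _) ⟨fun _ => 0, Nat.zero_le _⟩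
  have hrmax : ∀ (j : ℕ) (Q : Fin j → E), finrank K (US B Q) ≤ r j := by
    intro j Q
    exact Nat.le_findGreatest (hbd j Q) ⟨Q, le_rfl⟩
  have hrstep : ∀ j, r j ≤ r (j + 1) := by
    intro j
    obtain ⟨Q, hQ⟩ := hrspec j
    have h1 := Submodule.finrank_mono (US_snoc_left B Q 0)
    exact hQ.trans (h1.trans (hrmax _ _))
  have hrmono : Monotone r := monotone_nat_of_le_succ hrstep
  have hlast : r (δ - 1) + 2 ≤ 2 * δ := by
    obtain ⟨Q, hQ⟩ := hrspec (δ - 1)
    have := hlt Q
    omega
  -- the two cases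
  obtain ⟨j, hj, hst⟩ : ∃ j, j ≤ δ - 1 ∧ ∀ Q : Fin j → E, r j ≤ finrank K (US B Q) → ∀ R,
      finrank K (US B (Fin.snoc Q R : Fin (j + 1) → E)) ≤ r j + 1 := by
    by_cases hex : ∃ j, j + 1 ≤ δ - 1 ∧ r (j + 1) ≤ r j + 1
    · obtain ⟨j, h1, h2⟩ := hex
      exact ⟨j, by omega, fun Q _ R => (hrmax (j + 1) _).trans h2⟩
    · push Not at hex
      have h1 : ∀ j, j ≤ δ - 1 → 2 * j ≤ r j := by
        intro j
        induction j with
        | zero => intro _; omega
        | succ j ih =>
          intro hj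
          have h2 := ih (by omega)
          have h3 := hex j hj
          omega
      have h2 := h1 (δ - 1) le_rfl
      refine ⟨δ - 1, le_rfl, fun Q hQ R => ?_⟩
      have h3 := hlt Q
      have h4 := hsnoc Q R (by omega)
      omega
  obtain ⟨Q, hQ⟩ := hrspec j
  have hj2 := hrmono hj
  obtain ⟨φ, v₀, hv₀, hNHU, hdim⟩ := core B j (r j) hspan (hrmax j) hst (by omega) Q hQ
  set NH := Submodule.span K {z | ∃ v e, φ v = 0 ∧ z = B v e} with hNH
  have hmemNH : ∀ v, φ v = 0 → ∀ e, B v e ∈ NH := fun v hv e =>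
    Submodule.subset_span ⟨v, e, hv, rfl⟩
  have hout : ∀ (p : ℕ) (Q' : Fin p → E), NH ≤ US B Q' → p ≤ δ - 1 → ∃ R, B v₀ R ∉ US B Q' := by
    intro p Q' hQ' hp
    by_contra hc
    push Not at hc
    have h1 := hspan (US B Q') (fun v e =>
      decomp B φ hv₀ _ e (fun h hh => hQ' (hmemNH h hh e)) (hc e) v)
    have h2 := hrmax p Q'
    rw [h1, finrank_top] at h2
    have h3 := hrmono hp
    omega
  have hext : ∀ p, j ≤ p → p ≤ δ - 1 → ∃ Q' : Fin p → E, NH ≤ US B Q' ∧
      finrank K NH + p ≤ finrank K (US B Q') := by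
    intro p hjp
    induction p, hjp using Nat.le_induction with
    | base => intro _; exact ⟨Q, hNHU, hdim⟩
    | succ p hp ih =>
      intro hp1
      obtain ⟨Q', h1, h2⟩ := ih (by omega)
      obtain ⟨R, hR⟩ := hout p Q' h1 (by omega)
      refine ⟨(Fin.snoc Q' R : Fin (p + 1) → E), h1.trans (US_snoc_left B Q' R), ?_⟩
      have h3 := finrank_succ_le (US_snoc_left B Q' R) (mem_US_snoc_last B Q' R v₀) hR
      omega
  obtain ⟨Q', h1, h2⟩ := hext (δ - 1) hj le_rfl
  have h3 := hlt Q'
  have h4 := hH φ (by rintro rfl; exact hv₀ rfl)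
  rw [← hNH] at h4
  omega

end Pool.Agent.H56.BO
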