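import Pool.Agent.H17.BO.TargetsC
import Pool.Agent.H90.VG.ST

/-!
# MP_70ba79_ag: row SG3 of the board `bo_modules` (the case of a reducible conic)
-/

set_option autoImplicit false

namespace Pool.Agent.H56.BO

open MvPolynomial SC Pool.Agent.H27.LV Pool.Agent.H17.VG Pool.Agent.H17.BO

section Gen

variable {k K : Type} [Field k] [Field K] [Algebra k K] {n : ℕ}

private theorem fnl_add {d : ℕ} (y : Mon (n + 1) d → K) (G H : MvPolynomial (Fin (n + 1)) K) :
    fnl y (G + H) = fnl y G + fnl y H := by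
  unfold fnl
  rw [← Finset.sum_add_distrib]
  refine Finset.sum_congr rfl fun M _ => ?_
  rw [coeff_add, mul_add]

private theorem fnl_C_mul {d : ℕ} (y : Mon (n + 1) d → K) (a : K)
    (G : MvPolynomial (Fin (n + 1)) K) : fnl y (C a * G) = a * fnl y G := by
  unfold fnl
  rw [Finset.mul_sum]
  refine Finset.sum_congr rfl fun M _ => ?_
  rw [coeff_C_mul]
  ring

private theorem fnl_sum {d : ℕ} (y : Mon (n + 1) d → K) {ι : Type} (s : Finset ι)
    (G : ι → MvPolynomial (Fin (n + 1)) K) : fnl y (∑ i ∈ s, G i) = ∑ i ∈ s, fnl y (G i) := by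
  unfold fnl
  rw [Finset.sum_comm]
  refine Finset.sum_congr rfl fun M _ => ?_
  rw [coeff_sum, Finset.mul_sum]

private theorem fnl_comb {d : ℕ} (y z : Mon (n + 1) d → K) (a b : K)
    (G : MvPolynomial (Fin (n + 1)) K) :
    fnl (fun M => a * y M + b * z M) G = a * fnl y G + b * fnl z G := by
  unfold fnl
  rw [Finset.mul_sum, Finset.mul_sum, ← Finset.sum_add_distrib]
  refine Finset.sum_congr rfl fun M _ => ?_
  ring

private theorem coeff_frm {e : ℕ} (t : Mon (n + 1) e → K) (f : Mon (n + 1) e) :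
    coeff (fs f.1) (frm t) = t f := by
  simp only [frm, coeff_sum, coeff_C_mul, coeff_mono]
  rw [Finset.sum_eq_single f (by
    intro b _ hb
    rw [if_neg (fun h => hb (Subtype.ext h)), mul_zero]) (by simp)]
  simp

private theorem up_mono (f : Fin (n + 1) → ℕ) :
    up K (mono k f) = mono K f := by
  unfold up mono
  rw [map_monomial, map_one]

private theorem up_mul (G H : MvPolynomial (Fin (n + 1)) k) :
    up K (G * H) = up K G * up K H := map_mul _ _ _

private theorem homog_up {e : ℕ} {G : MvPolynomial (Fin (n + 1)) k} (h : G.IsHomogeneous e) :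
    (up K G).IsHomogeneous e := h.map _

private theorem homog_lin (x : Fin (n + 1) → K) : (lin x).IsHomogeneous 1 := by
  unfold lin
  refine IsHomogeneous.sum _ _ _ fun j _ => ?_
  have := (isHomogeneous_C (Fin (n + 1)) (x j)).mul (isHomogeneous_X K j)
  simpa using this

private theorem up_lin (η : Fin (n + 1) → k) :
    up K (lin η) = ∑ j, C (algebraMap k K (η j)) * X j := by
  unfold up lin
  rw [map_sum]
  refine Finset.sum_congr rfl fun j _ => ?_
  rw [map_mul, map_C, map_X]

/-- From forms over `k` to forms over `K`. -/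
private theorem ext_k {d e : ℕ} (y : Mon (n + 1) d → K) (P : MvPolynomial (Fin (n + 1)) K)
    (h : ∀ R : Mon (n + 1) e → k, fnl y (P * up K (frm R)) = 0)
    (G : MvPolynomial (Fin (n + 1)) K) (hG : G.IsHomogeneous e) : fnl y (P * G) = 0 := by
  classical
  rw [← frm_coeff hG]
  unfold frm
  rw [Finset.mul_sum, fnl_sum]
  refine Finset.sum_eq_zero fun f _ => ?_
  have h1 := h (Pi.single f 1)
  have h2 : frm (Pi.single f (1 : k)) = mono k f.1 := by
    unfold frm
    rw [Finset.sum_eq_single f]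
    · rw [Pi.single_eq_same, C_1, one_mul]
    · intro b _ hb
      rw [Pi.single_eq_of_ne hb, C_0, zero_mul]
    · simp
  rw [h2, up_mono] at h1
  rw [mul_left_comm, fnl_C_mul, h1, mul_zero]

/-- The functional `G ↦ φ (P G)`. -/
private theorem fnl_push {d e : ℕ} (y : Mon (n + 1) d → K) (P : MvPolynomial (Fin (n + 1)) K)
    (G : MvPolynomial (Fin (n + 1)) K) (hG : G.IsHomogeneous e) :
    fnl (fun M : Mon (n + 1) e => fnl y (P * mono K M.1)) G = fnl y (P * G) := by
  conv_rhs => rw [← frm_coeff hG]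
  unfold frm
  rw [Finset.mul_sum, fnl_sum]
  have h1 : fnl (fun M : Mon (n + 1) e => fnl y (P * mono K M.1)) G =
      ∑ M : Mon (n + 1) e, fnl y (P * mono K M.1) * coeff (fs M.1) G := rfl
  rw [h1]
  refine Finset.sum_congr rfl fun f _ => ?_
  rw [mul_left_comm, fnl_C_mul, mul_comm]

end Gen

private theorem cross_aux {k L : Type} [Field k] [Field L] [Algebra k L] (m : Fin 3 → L)
    (z z' : Fin 3 → k) (hz : z ≠ 0) (h : ∑ t, m t * algebraMap k L (z t) = 0)
    (h' : ∑ t, m t * algebraMap k L (z' t) = 0) :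
    (∃ (η : Fin 3 → k) (s : L), ∀ t, m t = s * algebraMap k L (η t)) ∨
      ∃ l : k, ∀ t, z' t = l * z t := by
  rw [Fin.sum_univ_three] at h h'
  set ζ : Fin 3 → k := ![z 1 * z' 2 - z 2 * z' 1, z 2 * z' 0 - z 0 * z' 2,
    z 0 * z' 1 - z 1 * z' 0] with hζ
  have e0 : ζ 0 = z 1 * z' 2 - z 2 * z' 1 := rfl
  have e1 : ζ 1 = z 2 * z' 0 - z 0 * z' 2 := rfl
  have e2 : ζ 2 = z 0 * z' 1 - z 1 * z' 0 := rfl
  by_cases h0 : ζ = 0
  · right
    have f0 := congrFun h0 0
    have f1 := congrFun h0 1
    have f2 := congrFun h0 2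
    rw [e0, Pi.zero_apply] at f0
    rw [e1, Pi.zero_apply] at f1
    rw [e2, Pi.zero_apply] at f2
    obtain ⟨j, hj⟩ := Function.ne_iff.1 hz
    rw [Pi.zero_apply] at hj
    refine ⟨z' j / z j, fun t => ?_⟩
    rw [div_mul_eq_mul_div, eq_div_iff hj]
    have a0 : z' 1 * z 2 = z' 2 * z 1 := by linear_combination -f0
    have a1 : z' 2 * z 0 = z' 0 * z 2 := by linear_combination -f1
    have a2 : z' 0 * z 1 = z' 1 * z 0 := by linear_combination -f2
    have hzz : ∀ i j : Fin 3, z' i * z j = z' j * z i := by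
      intro i j
      fin_cases i <;> fin_cases j <;> first
        | rfl
        | exact a0
        | exact a0.symm
        | exact a1
        | exact a1.symm
        | exact a2
        | exact a2.symm
    exact hzz t j
  · left
    obtain ⟨j, hj⟩ := Function.ne_iff.1 h0
    rw [Pi.zero_apply] at hj
    have hj' : algebraMap k L (ζ j) ≠ 0 := by
      rwa [Ne, map_eq_zero]
    refine ⟨ζ, m j / algebraMap k L (ζ j), fun t => ?_⟩
    rw [div_mul_eq_mul_div, eq_div_iff hj']
    have e0' : algebraMap k L (ζ 0) = algebraMap k L (z 1) * algebraMap k L (z' 2) -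
        algebraMap k L (z 2) * algebraMap k L (z' 1) := by rw [e0, map_sub, map_mul, map_mul]
    have e1' : algebraMap k L (ζ 1) = algebraMap k L (z 2) * algebraMap k L (z' 0) -
        algebraMap k L (z 0) * algebraMap k L (z' 2) := by rw [e1, map_sub, map_mul, map_mul]
    have e2' : algebraMap k L (ζ 2) = algebraMap k L (z 0) * algebraMap k L (z' 1) -
        algebraMap k L (z 1) * algebraMap k L (z' 0) := by rw [e2, map_sub, map_mul, map_mul]
    have g2 : m 0 * algebraMap k L (ζ 1) = m 1 * algebraMap k L (ζ 0) := by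
      rw [e0', e1']
      linear_combination algebraMap k L (z 2) * h' - algebraMap k L (z' 2) * h
    have g0 : m 1 * algebraMap k L (ζ 2) = m 2 * algebraMap k L (ζ 1) := by
      rw [e2', e1']
      linear_combination algebraMap k L (z 0) * h' - algebraMap k L (z' 0) * h
    have g1 : m 2 * algebraMap k L (ζ 0) = m 0 * algebraMap k L (ζ 2) := by
      rw [e0', e2']
      linear_combination algebraMap k L (z 1) * h' - algebraMap k L (z' 1) * h
    have hmm : ∀ i j : Fin 3, m i * algebraMap k L (ζ j) = m j * algebraMap k L (ζ i) := by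
      intro i j
      fin_cases i <;> fin_cases j <;> first
        | rfl
        | exact g0
        | exact g0.symm
        | exact g1
        | exact g1.symm
        | exact g2
        | exact g2.symm
    exact hmm t j

private theorem span_aux {L : Type} [Field L] (x m0 m1 : Fin 3 → L) (hx : x ≠ 0)
    (hm : LinearIndependent L ![m0, m1]) (h0 : ∑ t, m0 t * x t = 0) (h1 : ∑ t, m1 t * x t = 0)
    (ζ : Fin 3 → L) (hζ : ∑ t, ζ t * x t = 0) : ∃ a b : L, ζ = a • m0 + b • m1 := by
  have hfr : Module.finrank L (Vx x) = 2 := Pool.Agent.H90.VG.finrank_Vx (n := 2) hx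
  have hle : Submodule.span L {m0, m1} ≤ Vx (n := 2) x := by
    rw [Submodule.span_le]
    rintro z (rfl | rfl)
    · exact h0
    · exact h1
  have h2 : Module.finrank L (Submodule.span L ({m0, m1} : Set (Fin 3 → L))) = 2 := by
    have h3 := finrank_span_eq_card (R := L) (b := ![m0, m1]) hm
    have h4 : Set.range ![m0, m1] = {m0, m1} := by
      ext z
      simp [eq_comm]
      tauto
    rw [h4] at h3
    simpa using h3
  have h5 := Submodule.eq_of_le_of_finrank_eq hle (h2.trans hfr.symm)
  have h6 : ζ ∈ Vx (n := 2) x := hζ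
  rw [← h5, Submodule.mem_span_pair] at h6
  obtain ⟨a, b, hab⟩ := h6
  exact ⟨a, b, hab.symm⟩

private theorem fnl_frm {K : Type} [Field K] {n d : ℕ} (y Q : Mon (n + 1) d → K) :
    fnl y (frm Q) = ∑ M, y M * Q M := by
  unfold fnl
  refine Finset.sum_congr rfl fun M _ => ?_
  rw [coeff_frm]

private theorem eval_scale {k : Type} [Field k] {n e : ℕ} (l : k) (z : Fin (n + 1) → k)
    (z' : Fin (n + 1) → k) (h : ∀ t, z' t = l * z t) (Q : Mon (n + 1) e → k) :
    eval z' (frm Q) = l ^ e * eval z (frm Q) := by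
  rw [eval_frm, eval_frm, Finset.mul_sum]
  refine Finset.sum_congr rfl fun f _ => ?_
  have h1 : mv e z' f = l ^ e * mv e z f := by
    unfold mv
    have h2 : ∀ j, z' j ^ f.1 j = l ^ f.1 j * z j ^ f.1 j := fun j => by rw [h j, mul_pow]
    rw [Finset.prod_congr rfl fun j _ => h2 j, Finset.prod_mul_distrib, Finset.prod_pow_eq_pow_sum,
      f.2]
  rw [h1]
  ring

theorem pf_SG3 (hANN : T_ANN) (hEVX : T_EVX) (hOLN : T_OLN) : T_SG3 := by
  classical
  intro k L _ _ _ e m he g hg x y ν hF2 w hw hwg m0 m1 hm h0 h1 hk s0 s1 η hs hη hR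
  obtain ⟨e', rfl⟩ : ∃ e', e = e' + 1 := ⟨e - 1, by omega⟩
  by_cases hx : x = 0
  · exact ⟨0, 0, 0, 0, fun i => by rw [hx]; simp⟩
  set a0 := algebraMap k L s0 with ha0
  set a1 := algebraMap k L s1 with ha1
  set m' : Fin 3 → L := fun t => a1 * m0 t - a0 * m1 t with hm'
  have hlinm' : lin m' = C a1 * lin m0 + C (-a0) * lin m1 := by
    unfold lin
    rw [Finset.mul_sum, Finset.mul_sum, ← Finset.sum_add_distrib]
    refine Finset.sum_congr rfl fun t _ => ?_
    rw [hm']
    simp only [map_sub, map_mul, map_neg]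
    ring
  have hm'x : ∑ t, m' t * x t = 0 := by
    have : ∑ t, m' t * x t = a1 * ∑ t, m0 t * x t - a0 * ∑ t, m1 t * x t := by
      rw [Finset.mul_sum, Finset.mul_sum, ← Finset.sum_sub_distrib]
      refine Finset.sum_congr rfl fun t _ => ?_
      rw [hm']
      ring
    rw [this, h0, h1, mul_zero, mul_zero, sub_zero]
  have hm'0 : m' ≠ 0 := by
    intro h
    have h2 : a1 • m0 + (-a0) • m1 = 0 := by
      funext t
      have := congrFun h t
      rw [hm'] at this
      simp only [Pi.zero_apply, Pi.add_apply, Pi.smul_apply, smul_eq_mul] at this ⊢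
      linear_combination this
    obtain ⟨h3, h4⟩ := LinearIndependent.pair_iff.1 hm _ _ h2
    rcases hs with hs | hs
    · apply hs
      rw [neg_eq_zero, ha0, map_eq_zero] at h4
      exact h4
    · apply hs
      rw [ha1, map_eq_zero] at h3
      exact h3
  obtain ⟨m'', hm''x, hspan, hm''k⟩ : ∃ m'' : Fin 3 → L, (∑ t, m'' t * x t = 0) ∧
      (∀ ζ : Fin 3 → L, ∑ t, ζ t * x t = 0 → ∃ a b : L, ζ = a • m' + b • m'') ∧
      ∀ (Q : Mon 3 (e' + 1 + 1) → k) b, ∃ r : k, fnl (y b) (lin m'' * up L (frm Q)) =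
        algebraMap k L r := by
    by_cases hs1 : s1 = 0
    · have hs0 : s0 ≠ 0 := by
        rcases hs with h | h
        · exact h
        · exact absurd hs1 h
      have ha00 : a0 ≠ 0 := by rwa [ha0, Ne, map_eq_zero]
      have ha10 : a1 = 0 := by rw [ha1, hs1, map_zero]
      refine ⟨m0, h0, ?_, fun Q b => (hk Q b).1⟩
      intro ζ hζ
      obtain ⟨α, β, rfl⟩ := span_aux x m0 m1 hx hm h0 h1 ζ hζ
      refine ⟨-(β / a0), α, ?_⟩
      funext t
      rw [hm']
      simp only [Pi.add_apply, Pi.smul_apply, smul_eq_mul, ha10]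
      field_simp
      ring
    · have ha10 : a1 ≠ 0 := by rwa [ha1, Ne, map_eq_zero]
      refine ⟨m1, h1, ?_, fun Q b => (hk Q b).2⟩
      intro ζ hζ
      obtain ⟨α, β, rfl⟩ := span_aux x m0 m1 hx hm h0 h1 ζ hζ
      refine ⟨α / a1, α * a0 / a1 + β, ?_⟩
      funext t
      rw [hm']
      simp only [Pi.add_apply, Pi.smul_apply, smul_eq_mul]
      field_simp
      ring
  -- multiples of `m' η`
  have H1 : ∀ (b : Fin 2) (G : MvPolynomial (Fin 3) L), G.IsHomogeneous (e' + 1) →
      fnl (y b) (lin m' * up L (lin η) * G) = 0 := by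
    intro b G hG
    refine ext_k (k := k) (y b) (lin m' * up L (lin η)) ?_ G hG
    intro R
    have h2 : lin m' * up L (lin η) * up L (frm R) =
        C a1 * (lin m0 * up L (lin η * frm R)) + C (-a0) * (lin m1 * up L (lin η * frm R)) := by
      rw [hlinm', up_mul]
      ring
    rw [h2, fnl_add, fnl_C_mul, fnl_C_mul, hR R b]
    ring
  -- the functionals `θ`
  have hθ : ∀ (M : Mon 3 (e' + 1)) (b : Fin 2), ∃ r : k,
      fnl (y b) (lin m'' * up L (lin η * mono k M.1)) = algebraMap k L r := by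
    intro M b
    have h2 : (lin η * mono k M.1).IsHomogeneous (e' + 1 + 1) := by
      have := (homog_lin η).mul (isHomogeneous_mono (K := k) M)
      rwa [add_comm 1] at this
    obtain ⟨r, hr⟩ := hm''k (fun f => coeff (fs f.1) (lin η * mono k M.1)) b
    rw [frm_coeff h2] at hr
    exact ⟨r, hr⟩
  choose θ hθ using hθ
  have H2 : ∀ (b : Fin 2) (G : MvPolynomial (Fin 3) k), G.IsHomogeneous (e' + 1) →
      algebraMap k L (fnl (fun M => θ M b) G) = fnl (y b) (lin m'' * up L (lin η * G)) := by
    intro b G hG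
    have h2 : lin m'' * up L (lin η * G) = ∑ f : Mon 3 (e' + 1),
        C (algebraMap k L (coeff (fs f.1) G)) * (lin m'' * up L (lin η * mono k f.1)) := by
      conv_lhs => rw [← frm_coeff hG]
      unfold frm
      rw [Finset.mul_sum]
      unfold up
      rw [map_sum, Finset.mul_sum]
      refine Finset.sum_congr rfl fun f _ => ?_
      simp only [map_mul, map_C]
      ring
    rw [h2, fnl_sum]
    unfold fnl
    rw [map_sum]
    refine Finset.sum_congr rfl fun f _ => ?_
    rw [map_mul]
    have h3 := hθ f b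
    have h4 := fnl_C_mul (y b) (algebraMap k L (coeff (fs f.1) G))
      (lin m'' * up L (lin η * mono k f.1))
    rw [h3] at h4
    rw [mul_comm, ← h4]
    rfl
  have H3 : ∀ (b : Fin 2) (R : Mon 3 e' → k),
      ∑ t, m' t * fnl (y b) (lin m'' * up L (lin η * (X t * frm R))) = 0 := by
    intro b R
    have h2 : (lin m'' * up L (frm R)).IsHomogeneous (e' + 1) := by
      have := (homog_lin m'').mul (homog_up (K := L) (frm_homog R))
      rwa [add_comm 1] at this
    have h3 := H1 b _ h2
    have h4 : lin m' * up L (lin η) * (lin m'' * up L (frm R)) =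
        ∑ t, C (m' t) * (lin m'' * up L (lin η * (X t * frm R))) := by
      have h5 : lin m' = ∑ t, C (m' t) * X t := rfl
      rw [h5, Finset.sum_mul, Finset.sum_mul]
      refine Finset.sum_congr rfl fun t _ => ?_
      rw [up_mul, up_mul]
      have h6 : up L (X t : MvPolynomial (Fin 3) k) = X t := map_X _ _
      rw [h6]
      ring
    rw [h4, fnl_sum] at h3
    rw [← h3]
    refine Finset.sum_congr rfl fun t _ => ?_
    rw [fnl_C_mul]
  have hXf : ∀ (t : Fin 3) (R : Mon 3 e' → k),
      (X t * frm R : MvPolynomial (Fin 3) k).IsHomogeneous (e' + 1) := by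
    intro t R
    have := (isHomogeneous_X k t).mul (frm_homog R)
    rwa [add_comm 1] at this
  have hA3 : ∀ c0 c1 : k, (∀ M, c0 * θ M 0 + c1 * θ M 1 = 0) ∨
      (∃ (η' : Fin 3 → k) (s : L), ∀ t, m' t = s * algebraMap k L (η' t)) ∨
      ∃ (z : Fin 3 → k) (c : k), z ≠ 0 ∧ c ≠ 0 ∧ ∑ t, m' t * algebraMap k L (z t) = 0 ∧
        ∀ Q : Mon 3 (e' + 1) → k, fnl (fun M => c0 * θ M 0 + c1 * θ M 1) (frm Q) =
          c * eval z (frm Q) := by
    intro c0 c1
    refine hANN k L e' (fun M => c0 * θ M 0 + c1 * θ M 1) m' hm'0 ?_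
    intro R
    have h2 : ∀ t : Fin 3, m' t * algebraMap k L
        (fnl (fun M => c0 * θ M 0 + c1 * θ M 1) (X t * frm R)) =
        algebraMap k L c0 * (m' t * fnl (y 0) (lin m'' * up L (lin η * (X t * frm R)))) +
        algebraMap k L c1 * (m' t * fnl (y 1) (lin m'' * up L (lin η * (X t * frm R)))) := by
      intro t
      rw [fnl_comb (fun M => θ M 0) (fun M => θ M 1), map_add, map_mul, map_mul,
        H2 0 _ (hXf t R), H2 1 _ (hXf t R)]
      ring
    rw [Finset.sum_congr rfl fun t _ => h2 t, Finset.sum_add_distrib, ← Finset.mul_sum,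
      ← Finset.mul_sum, H3 0 R, H3 1 R, mul_zero, mul_zero, add_zero]
  by_cases hA : ∃ (η' : Fin 3 → k) (s : L), ∀ t, m' t = s * algebraMap k L (η' t)
  · obtain ⟨η', s, h2⟩ := hA
    have hs0 : s ≠ 0 := by
      rintro rfl
      apply hm'0
      funext t
      rw [h2, zero_mul, Pi.zero_apply]
    refine hOLN k L x η' ?_ ?_
    · rintro rfl
      apply hm'0
      funext t
      rw [h2, Pi.zero_apply, map_zero, mul_zero, Pi.zero_apply]
    · have h3 : s * ∑ t, algebraMap k L (η' t) * x t = 0 := by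
        rw [← hm'x, Finset.mul_sum]
        refine Finset.sum_congr rfl fun t _ => ?_
        rw [h2]
        ring
      exact (mul_eq_zero.1 h3).resolve_left hs0
  obtain ⟨c0, c1, hc, hzero⟩ : ∃ c0 c1 : k, (c0 ≠ 0 ∨ c1 ≠ 0) ∧
      ∀ M, c0 * θ M 0 + c1 * θ M 1 = 0 := by
    rcases hA3 1 0 with h | h | ⟨z, c, hz, hc, hmz, hQ⟩
    · exact ⟨1, 0, Or.inl one_ne_zero, h⟩
    · exact absurd h hA
    rcases hA3 0 1 with h | h | ⟨z', c', hz', hc', hmz', hQ'⟩
    · exact ⟨0, 1, Or.inr one_ne_zero, h⟩
    · exact absurd h hA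
    rcases cross_aux m' z z' hz hmz hmz' with h | ⟨l, hl⟩
    · exact absurd h hA
    refine ⟨-(c' * l ^ (e' + 1)), c, Or.inr hc, fun M => ?_⟩
    have h2 := hQ (Pi.single M 1)
    have h3 := hQ' (Pi.single M 1)
    rw [eval_scale l z z' hl] at h3
    rw [fnl_frm, Finset.sum_eq_single M (by
      intro b _ hb
      rw [Pi.single_eq_of_ne hb, mul_zero]) (by simp), Pi.single_eq_same] at h2 h3
    linear_combination -(c' * l ^ (e' + 1)) * h2 + c * h3
  -- the functional `φ`
  set φ : Mon 3 (e' + 1 + 2) → L :=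
    fun M => algebraMap k L c0 * y 0 M + algebraMap k L c1 * y 1 M with hφ
  have hφG : ∀ G, fnl φ G = algebraMap k L c0 * fnl (y 0) G + algebraMap k L c1 * fnl (y 1) G :=
    fun G => fnl_comb (y 0) (y 1) _ _ G
  have H4 : ∀ G : MvPolynomial (Fin 3) L, G.IsHomogeneous (e' + 1) →
      fnl φ (lin m'' * up L (lin η) * G) = 0 := by
    intro G hG
    refine ext_k (k := k) φ (lin m'' * up L (lin η)) ?_ G hG
    intro R
    have h2 : lin m'' * up L (lin η) * up L (frm R) = lin m'' * up L (lin η * frm R) := by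
      rw [up_mul]
      ring
    rw [h2, hφG, ← H2 0 _ (frm_homog R), ← H2 1 _ (frm_homog R), ← map_mul, ← map_mul, ← map_add,
      ← fnl_comb, map_eq_zero]
    have h3 : (fun M => c0 * θ M 0 + c1 * θ M 1) = fun _ : Mon 3 (e' + 1) => (0 : k) :=
      funext hzero
    rw [h3]
    unfold fnl
    exact Finset.sum_eq_zero fun M _ => zero_mul _
  have H5 : ∀ G : MvPolynomial (Fin 3) L, G.IsHomogeneous (e' + 1) →
      fnl φ (lin m' * up L (lin η) * G) = 0 := by
    intro G hG
    rw [hφG, H1 0 G hG, H1 1 G hG, mul_zero, mul_zero, add_zero]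
  obtain ⟨c, hcG⟩ := hEVX L 2 (e' + 1) x hx
    (fun M : Mon 3 (e' + 1 + 1) => fnl φ (up L (lin η) * mono L M.1)) (by
      intro ζ hζ R hRh
      have h2 : (lin ζ * R).IsHomogeneous (e' + 1 + 1) := by
        have := (homog_lin ζ).mul hRh
        rwa [add_comm 1] at this
      rw [fnl_push φ (up L (lin η)) _ h2]
      obtain ⟨a, b, rfl⟩ := hspan ζ hζ
      have h3 : lin (a • m' + b • m'') = C a * lin m' + C b * lin m'' := by
        unfold lin
        rw [Finset.mul_sum, Finset.mul_sum, ← Finset.sum_add_distrib]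
        refine Finset.sum_congr rfl fun t _ => ?_
        simp only [Pi.add_apply, Pi.smul_apply, smul_eq_mul, map_add, map_mul]
        ring
      have h4 : up L (lin η) * (lin (a • m' + b • m'') * R) =
          C a * (lin m' * up L (lin η) * R) + C b * (lin m'' * up L (lin η) * R) := by
        rw [h3]
        ring
      rw [h4, fnl_add, fnl_C_mul, fnl_C_mul, H4 R hRh, H5 R hRh, mul_zero, mul_zero, add_zero])
  -- the gradient
  set νc : Fin m → L := fun a => algebraMap k L c0 * ν 0 a + algebraMap k L c1 * ν 1 a with hνc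
  have H6 : ∀ a, -((∑ t, algebraMap k L (η t) * x t) * νc a) = c * eval x (up L (g a)) := by
    intro a
    have h2 : (up L (g a)).IsHomogeneous (e' + 1 + 1) := homog_up (hg a)
    have h3 := hcG _ h2
    rw [fnl_push φ (up L (lin η)) _ h2, up_lin, Finset.sum_mul, fnl_sum] at h3
    rw [← h3, Finset.sum_mul, ← Finset.sum_neg_distrib]
    refine Finset.sum_congr rfl fun t _ => ?_
    rw [mul_assoc (C _), fnl_C_mul, hφG, hF2.grad 0 t a, hF2.grad 1 t a, hνc]
    ring
  have hc0 : c = 0 := by
    have h2 : c * ∑ a, w a * eval x (up L (g a)) = 0 := by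
      rw [Finset.mul_sum]
      have h3 : ∀ a, c * (w a * eval x (up L (g a))) =
          -(∑ t, algebraMap k L (η t) * x t) * (algebraMap k L c0 * (ν 0 a * w a) +
            algebraMap k L c1 * (ν 1 a * w a)) := by
        intro a
        have := H6 a
        rw [hνc] at this
        linear_combination -(w a) * this
      rw [Finset.sum_congr rfl fun a _ => h3 a, ← Finset.mul_sum, Finset.sum_add_distrib,
        ← Finset.mul_sum, ← Finset.mul_sum, hw 0, hw 1]
      ring
    exact (mul_eq_zero.1 h2).resolve_right hwg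
  refine hOLN k L x η hη ?_
  by_contra hne
  have h2 : νc = 0 := by
    funext a
    have h3 := H6 a
    rw [hc0, zero_mul, neg_eq_zero] at h3
    exact (mul_eq_zero.1 h3).resolve_left hne
  have h4 : algebraMap k L c0 • ν 0 + algebraMap k L c1 • ν 1 = 0 := by
    funext a
    have h5 := congrFun h2 a
    rw [hνc] at h5
    exact h5
  have h5 : LinearIndependent L ![ν 0, ν 1] := by
    have h6 : ![ν 0, ν 1] = ν := by
      funext i
      fin_cases i <;> rfl
    rw [h6]
    exact hF2.ind
  obtain ⟨h6, h7⟩ := LinearIndependent.pair_iff.1 h5 _ _ h4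
  rw [map_eq_zero] at h6 h7
  rcases hc with hc | hc
  · exact hc h6
  · exact hc h7

end Pool.Agent.H56.BO
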