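import Pool.Agent.H17.BO.TargetsA
import Pool.Agent.H90.VG.ST

/-!
# MP_70ba79_ag: row STB of the board `bo_modules` (the steps in the border case)
-/

set_option autoImplicit false

namespace Pool.Agent.H56.BO

open MvPolynomial SC Pool.Agent.H27.LV Pool.Agent.H17.VG Pool.Agent.H90.VG

private theorem dict {R k K : Type} [Field R] [Field k] [Field K] [CharZero K]
    [Algebra k K] [Algebra R K] {n e : ℕ} (F : MvPolynomial (Fin (n + 1)) K)
    (x : Fin (n + 1) → K) {N : Type} [AddCommGroup N] [Module K N]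
    (B : Vx x →ₗ[K] (Mon (n + 1) e → K) →ₗ[K] N)
    (hBd : ∀ P : Set (Vx x × (Mon (n + 1) e → K)),
      Module.finrank K (Ut R F x (Submodule.span K {G | ∃ p ∈ P, G = lin p.1.1 * frm p.2})) =
        Module.finrank K (Submodule.span K {w | ∃ p ∈ P, w = B p.1 p.2}) + 2)
    {ι : Type} (Q' : ι → Mon (n + 1) e → k) :
    Module.finrank K (Ut R F x (PQ x fun j => up K (frm (Q' j)))) =
      Module.finrank K (im B (fun i j => algebraMap k K (Q' i j))) + 2 := by
  have h1 := hBd {p | ∃ j, p.2 = fun β => algebraMap k K (Q' j β)}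
  have h2 : Submodule.span K {G | ∃ p ∈ {p : Vx x × (Mon (n + 1) e → K) |
      ∃ j, p.2 = fun β => algebraMap k K (Q' j β)}, G = lin p.1.1 * frm p.2} =
      PQ x fun j => up K (frm (Q' j)) := by
    unfold PQ
    congr 1
    ext G
    constructor
    · rintro ⟨⟨ξ, q⟩, ⟨j, hj⟩, rfl⟩
      refine ⟨ξ.1, j, ξ.2, ?_⟩
      beta_reduce
      rw [up_frm]
      simp only at hj
      rw [hj]
    · rintro ⟨ξ, j, h, rfl⟩
      refine ⟨⟨⟨ξ, h⟩, fun β => algebraMap k K (Q' j β)⟩, ⟨j, rfl⟩, ?_⟩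
      beta_reduce
      rw [up_frm]
  have h3 : Submodule.span K {w | ∃ p ∈ {p : Vx x × (Mon (n + 1) e → K) |
      ∃ j, p.2 = fun β => algebraMap k K (Q' j β)}, w = B p.1 p.2} =
      im B (fun i j => algebraMap k K (Q' i j)) := by
    unfold im
    congr 1
    ext w
    constructor
    · rintro ⟨⟨v, q⟩, ⟨j, hj⟩, rfl⟩
      simp only at hj
      exact ⟨v, j, by rw [hj]⟩
    · rintro ⟨v, j, rfl⟩
      exact ⟨⟨v, fun β => algebraMap k K (Q' j β)⟩, ⟨j, rfl⟩, rfl⟩
  rw [h2, h3] at h1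
  exact h1

private theorem aux (hB : T_B) (hCB : Pool.Agent.H17.BO.T_CB) (hKB : Pool.Agent.H17.BO.T_KB)
    (hKP : T_KP) (hTP : T_TP) (R k K : Type) [Field R] [Field k] [Field K] [CharZero k]
    [CharZero K] [Algebra k K] [Algebra R K] (n e δ : ℕ) (F : MvPolynomial (Fin (n + 1)) K)
    (D : Derivation R K K) (x : Fin (n + 1) → K) (hδ : 1 ≤ δ) (hn : n = 2 * δ + 1)
    (he : e = 3 * δ + 1) (hS : Sys (e + 1) F D) (hI : Indep x (fun i => D (x i)))
    (hF : eval x F ≠ 0) (hT : ∀ y, Indep x y → ¬ TwoRoots (e + 1) F x y)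
    (N : Type) [AddCommGroup N] [Module K N] [FiniteDimensional K N]
    (B : Vx x →ₗ[K] (Mon (n + 1) e → K) →ₗ[K] N)
    (hBd : ∀ P : Set (Vx x × (Mon (n + 1) e → K)),
      Module.finrank K (Ut R F x (Submodule.span K {G | ∃ p ∈ P, G = lin p.1.1 * frm p.2})) =
        Module.finrank K (Submodule.span K {w | ∃ p ∈ P, w = B p.1 p.2}) + 2)
    (hq : Module.finrank K N + 2 = n + 1) :
    (∃ Q : Fin (δ - 1) → Mon (n + 1) e → k,
    n ≤ Module.finrank K (Ut R F x (PQ x fun j => up K (frm (Q j))))) ∨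
  ∃ (Q : Fin (δ - 1) → Mon (n + 1) e → k) (q : Mon (n + 1) e → k),
    Module.finrank K (Ut R F x (PQ x fun j => up K (frm (Q j)))) + 1 = n ∧
    Ut R F x (PQ x (Sum.elim (fun j => up K (frm (Q j))) fun _ : Unit => up K (frm q))) = ⊤ := by
  classical
  have hx : x ≠ 0 := indep_ne hI
  have hVn : Module.finrank K (Vx x) = n := finrank_Vx hx
  -- spanning
  have hspan : Submodule.span K {w | ∃ v q, w = B v q} = ⊤ := by
    have h1 := hBd Set.univ
    have h2 : {G | ∃ p ∈ (Set.univ : Set (Vx x × (Mon (n + 1) e → K))),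
        G = lin p.1.1 * frm p.2} = {G | ∃ (ξ : Fin (n + 1) → K) (q : Mon (n + 1) e → K),
        ∑ i, ξ i * x i = 0 ∧ G = lin ξ * frm q} := by
      ext G
      constructor
      · rintro ⟨⟨ξ, q⟩, _, rfl⟩
        exact ⟨ξ.1, q, ξ.2, rfl⟩
      · rintro ⟨ξ, q, h, rfl⟩
        exact ⟨⟨⟨ξ, h⟩, q⟩, trivial, rfl⟩
    have h3 : {w | ∃ p ∈ (Set.univ : Set (Vx x × (Mon (n + 1) e → K))), w = B p.1 p.2} =
        {w | ∃ v q, w = B v q} := by
      ext w
      constructor
      · rintro ⟨⟨v, q⟩, _, rfl⟩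
        exact ⟨v, q, rfl⟩
      · rintro ⟨v, q, rfl⟩
        exact ⟨⟨v, q⟩, trivial, rfl⟩
    rw [h2, h3, hTP R K n e F D x hS hF, finrank_top, Module.finrank_fin_fun] at h1
    apply Submodule.eq_top_of_finrank_eq
    omega
  -- hyperplanes
  have hhyp : ∀ φ : Vx x →ₗ[K] K, φ ≠ 0 →
      Module.finrank K N ≤
        Module.finrank K (Submodule.span K {w | ∃ v q, φ v = 0 ∧ w = B v q}) + δ := by
    intro φ hφ
    obtain ⟨ψ, hψ⟩ := LinearMap.exists_extend φ
    set y : Fin (n + 1) → K := fun i => ψ (Pi.single i 1) with hy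
    have hψy : ∀ ξ, ψ ξ = ∑ i, ξ i * y i := by
      intro ξ
      conv_lhs => rw [pi_eq_sum_univ' ξ]
      rw [map_sum]
      refine Finset.sum_congr rfl fun i _ => ?_
      rw [map_smul, smul_eq_mul]
    have hφy : ∀ v : Vx x, φ v = ∑ i, v.1 i * y i := by
      intro v
      rw [← hψ, LinearMap.comp_apply, hψy]
      rfl
    have hxy : Indep x y := by
      unfold Indep
      rw [LinearIndependent.pair_iff' hx]
      intro a ha
      apply hφ
      ext v
      rw [hφy, LinearMap.zero_apply, ← ha]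
      have h0 : ∑ i, v.1 i * x i = 0 := v.2
      calc ∑ i, v.1 i * (a • x) i = a * ∑ i, v.1 i * x i := by
            rw [Finset.mul_sum]
            refine Finset.sum_congr rfl fun i _ => ?_
            rw [Pi.smul_apply, smul_eq_mul]; ring
        _ = 0 := by rw [h0, mul_zero]
    have h1 := hBd {p | φ p.1 = 0}
    have h2 : Submodule.span K {G | ∃ p ∈ {p : Vx x × (Mon (n + 1) e → K) | φ p.1 = 0},
        G = lin p.1.1 * frm p.2} = Il e x y := by
      unfold Il
      congr 1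
      ext G
      constructor
      · rintro ⟨⟨ξ, q⟩, h, rfl⟩
        refine ⟨ξ.1, frm q, ξ.2, ?_, frm_homog q, rfl⟩
        rw [← hφy]
        exact h
      · rintro ⟨ξ, Q, h, h', hQ, rfl⟩
        refine ⟨⟨⟨ξ, h⟩, fun f => coeff (fs f.1) Q⟩, ?_, ?_⟩
        · show φ ⟨ξ, h⟩ = 0
          rw [hφy]
          exact h'
        · rw [frm_coeff hQ]
    have h3 : {w | ∃ p ∈ {p : Vx x × (Mon (n + 1) e → K) | φ p.1 = 0}, w = B p.1 p.2} =
        {w | ∃ v q, φ v = 0 ∧ w = B v q} := by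
      ext w
      constructor
      · rintro ⟨⟨v, q⟩, h, rfl⟩
        exact ⟨v, q, h, rfl⟩
      · rintro ⟨v, q, h, rfl⟩
        exact ⟨⟨v, q⟩, h, rfl⟩
    rw [h2, h3] at h1
    have h4 : Module.finrank K (Ut R F x (Il e x y)) ≤ n + 1 := by
      have := Submodule.finrank_le (Ut R F x (Il e x y))
      rwa [Module.finrank_fin_fun] at this
    obtain ⟨m, hm⟩ := Nat.exists_eq_add_of_le h4
    have hq' : Module.finrank K N + 2 = n + 1 := hq
    by_cases hm2 : n + 1 ≤ 2 * m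
    · have := hB R K n e F D x y hS hxy hI hF (hT y hxy) m hm.symm hm2
      omega
    · omega
  have hN2 : Module.finrank K N = 2 * δ := by
    have h5 : Module.finrank K N + 2 = n + 1 := hq
    omega
  have first : ∀ Q : Fin (δ - 1) → (Mon (n + 1) e → K),
      2 * δ ≤ Module.finrank K (im B Q) + 1 → ∃ Q : Fin (δ - 1) → Mon (n + 1) e → k,
      n ≤ Module.finrank K (Ut R F x (PQ x fun j => up K (frm (Q j)))) := by
    intro Q hQ
    obtain ⟨Q', hQ'⟩ := hKP k K (Vx x) N (Fin (δ - 1)) (Mon (n + 1) e) B Q _ le_rfl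
    refine ⟨Q', ?_⟩
    rw [dict F x B hBd Q']
    omega
  by_cases hex : ∃ Q : Fin (δ - 1) → (Mon (n + 1) e → K), 2 * δ ≤ Module.finrank K (im B Q) + 1
  · obtain ⟨Q, hQ⟩ := hex
    exact Or.inl (first Q hQ)
  rcases hCB K (Vx x) (Mon (n + 1) e → K) N B δ hδ hN2 hspan hhyp with h | ⟨Q, q, h1, h2⟩
  · exact absurd h hex
  push Not at hex
  obtain ⟨Q', q', h3, h4⟩ := hKB k K (Vx x) N (Mon (n + 1) e) B (δ - 1) (2 * δ - 2)
    (fun Q => by have := hex Q; omega) Q q (by omega) h2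
  refine Or.inr ⟨Q', q', ?_, ?_⟩
  · rw [dict F x B hBd Q']
    omega
  · have h5 := dict (k := k) F x B hBd (Sum.elim Q' fun _ : Unit => q')
    have h6 : (fun j : Fin (δ - 1) ⊕ Unit => up K (frm (Sum.elim Q' (fun _ => q') j))) =
        Sum.elim (fun j => up K (frm (Q' j))) fun _ : Unit => up K (frm q') := by
      funext j
      cases j <;> rfl
    have h7 : (fun (i : Fin (δ - 1) ⊕ Unit) j => algebraMap k K (Sum.elim Q' (fun _ => q') i j)) =
        Sum.elim (fun i j => algebraMap k K (Q' i j))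
          fun (_ : Unit) j => algebraMap k K (q' j) := by
      funext i
      cases i <;> rfl
    rw [h6, h7, h4, finrank_top] at h5
    apply Submodule.eq_top_of_finrank_eq
    rw [h5, Module.finrank_fin_fun]
    omega

theorem pf_STB (hB : T_B) (hCB : Pool.Agent.H17.BO.T_CB) (hKB : Pool.Agent.H17.BO.T_KB)
    (hKP : T_KP) (hBI : T_BI) (hTP : T_TP) : Pool.Agent.H17.BO.T_STB := by
  intro R k K _ _ _ _ _ _ _ n e δ F D x hδ hn he hS hI hF hT
  obtain ⟨B, hBd⟩ := hBI R K n e F D x hS hI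
  exact aux hB hCB hKB hKP hTP R k K n e δ F D x hδ hn he hS hI hF hT _ B hBd (finrank_quot hI)

end Pool.Agent.H56.BO
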